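import Mathlib
import Pool.Agent.Lib.MP_12eb66_co.F4

/-! Cyclic difference sets whose order n = p^a m has a prime factor p that is large compared with the cofactor m. -/

set_option autoImplicit false

namespace Pool.Agent.Results.MP_12eb66_co.LargePrime

/-- D is a subset of the integers mod v in which every nonzero residue is a difference in exactly l ways. -/
def IsDiffSet (v : ℕ) (D : Finset (ZMod v)) (l : ℕ) : Prop :=
  0 < v ∧ ∀ d : ZMod v, d ≠ 0 → ((D ×ˢ D).filter (fun y => y.1 - y.2 = d)).card = l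

/-- Let n = p^a m, p prime, a ≥ 1, p not dividing m, m ≥ 2, m coprime to v and p > 4^(m^2 - 1). Then n is coprime
to v. -/
theorem result : ∀ (v : ℕ) (D : Finset (ZMod v)) (l : ℕ), IsDiffSet v D l →
    ∀ p a m : ℕ, p.Prime → 1 ≤ a → ¬ p ∣ m → 2 ≤ m → D.card = l + p ^ a * m → 4 ^ (m ^ 2 - 1) < p →
      Nat.Coprime m v → Nat.Coprime (p ^ a * m) v := by
  rintro v D l ⟨hv, hD⟩ p a m hp ha hpm hm hc hpb h
  have : NeZero v := ⟨hv.ne'⟩
  have : NeZero p := ⟨hp.ne_zero⟩
  have hpv : ¬ p ∣ v := fun hpv => Ry.main_coprime hD hp ha hpv hpm hm hc hpb h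
  exact Nat.Coprime.mul_left (Nat.Coprime.pow_left a ((Nat.Prime.coprime_iff_not_dvd hp).2 hpv)) h

end Pool.Agent.Results.MP_12eb66_co.LargePrime
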