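import Mathlib
import Pool.Agent.Lib.MP_12eb66_co.N6

/-! A common prime divisor of n and v for a cyclic difference set. -/

set_option autoImplicit false

namespace Pool.Agent.Results.MP_12eb66_co.NonSquareCofactor

/-- D is a subset of the integers mod v in which every nonzero residue is a difference in exactly l ways. -/
def IsDiffSet (v : ℕ) (D : Finset (ZMod v)) (l : ℕ) : Prop :=
  0 < v ∧ ∀ d : ZMod v, d ≠ 0 → ((D ×ˢ D).filter (fun y => y.1 - y.2 = d)).card = l

/-- Let n = p^a m with p prime, a > 0, p not dividing m. If p divides v, then a ≥ 2, and if m is not a perfect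
square, then p is odd, p ≤ m^2 + m + 1, every prime r that divides m exactly an odd number of times has odd order
modulo p, and there are integers c, S with S^2 = m + c p, 2 |S| < p, |S| ≤ m + c. -/
theorem result : ∀ (v : ℕ) (D : Finset (ZMod v)) (l : ℕ), IsDiffSet v D l →
    ∀ p a m : ℕ, p.Prime → 0 < a → ¬ p ∣ m → 0 < m → D.card = l + p ^ a * m → p ∣ v →
      2 ≤ a ∧ (¬ IsSquare m → p ≠ 2 ∧ p ≤ m ^ 2 + m + 1 ∧
        (∀ r : ℕ, r.Prime → Odd (m.factorization r) → Odd (orderOf (r : ZMod p))) ∧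
        ∃ c S : ℤ, S ^ 2 = m + c * p ∧ 2 * |S| < p ∧ |S| ≤ m + c) := by
  rintro v D l ⟨hv, hD⟩ p a m hp ha hpm hm hc hpv
  have : NeZero v := ⟨hv.ne'⟩
  have hcop : (p ^ a).Coprime m :=
    Nat.Coprime.pow_left a ((Nat.Prime.coprime_iff_not_dvd hp).2 hpm)
  refine ⟨?_, fun hns => ?_⟩
  · have h1 : p ^ 2 ∣ p ^ a * m :=
      Ry.sq_dvd hD hp hc ((dvd_pow_self p ha.ne').mul_right m) hpv
    have h2 : (p ^ 2).Coprime m := Nat.Coprime.pow_left 2 ((Nat.Prime.coprime_iff_not_dvd hp).2 hpm)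
    have h3 : p ^ 2 ∣ p ^ a := h2.dvd_of_dvd_mul_right h1
    exact (Nat.pow_dvd_pow_iff_le_right hp.one_lt).1 h3
  · have hp2 : p ≠ 2 := by
      rintro rfl
      exact hns (Ry.isSquare_of_coprime_mul hcop (Ry.main_even hD hpv hc))
    obtain ⟨h1, h2⟩ := Ry.main_cofactor hD hp hp2 hpm hm hc hpv
    exact ⟨hp2, h1.resolve_left hns, h2, Ry.main_norm hD hp hp2 hc hpv⟩

end Pool.Agent.Results.MP_12eb66_co.NonSquareCofactor
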